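import Pool.Agent.Helper50.HT.Stmts

/-!
# Row WBD: interaction of two symmetric pairs of opposite charges
-/

set_option autoImplicit false

namespace Pool.Agent.Helper77.HT

open MeasureTheory Filter Pool.Agent.Helper95 Pool.Agent.Helper95.PW Pool.Agent.Helper95.LN
open Pool.Agent.Helper50.HT

theorem WBD_add (u v : R3) : nr (u + v) ≤ nr u + nr v := by
  have ha : 0 ≤ u 0 ^ 2 + u 1 ^ 2 + u 2 ^ 2 := by positivity
  have hb : 0 ≤ v 0 ^ 2 + v 1 ^ 2 + v 2 ^ 2 := by positivity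
  have h0 : 0 ≤ nr u := Real.sqrt_nonneg _
  have h1 : 0 ≤ nr v := Real.sqrt_nonneg _
  have e0 : nr u ^ 2 = u 0 ^ 2 + u 1 ^ 2 + u 2 ^ 2 := Real.sq_sqrt ha
  have e1 : nr v ^ 2 = v 0 ^ 2 + v 1 ^ 2 + v 2 ^ 2 := Real.sq_sqrt hb
  have hc : u 0 * v 0 + u 1 * v 1 + u 2 * v 2 ≤ nr u * nr v := by
    apply le_of_sq_le_sq' _ (mul_nonneg h0 h1)
    rw [mul_pow, e0, e1]
    nlinarith [sq_nonneg (u 0 * v 1 - u 1 * v 0), sq_nonneg (u 0 * v 2 - u 2 * v 0),
      sq_nonneg (u 1 * v 2 - u 2 * v 1)]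
  have e2 : nr (u + v) ^ 2 = (u 0 + v 0) ^ 2 + (u 1 + v 1) ^ 2 + (u 2 + v 2) ^ 2 := by
    have : nr (u + v) = Real.sqrt ((u 0 + v 0) ^ 2 + (u 1 + v 1) ^ 2 + (u 2 + v 2) ^ 2) := rfl
    rw [this]
    exact Real.sq_sqrt (by positivity)
  have : nr (u + v) ^ 2 ≤ (nr u + nr v) ^ 2 := by
    rw [e2]
    nlinarith
  exact le_of_sq_le_sq' this (add_nonneg h0 h1)
where
  le_of_sq_le_sq' {a b : ℝ} (h : a ^ 2 ≤ b ^ 2) (hb : 0 ≤ b) : a ≤ b := abs_le_of_sq_le_sq' h hb |>.2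

theorem WBD_neg (v : R3) : nr (-v) = nr v := by
  unfold nr
  simp only [Pi.neg_apply, neg_sq]

theorem WBD_smul (t : ℝ) (ht : |t| ≤ 1) (v : R3) : nr (t • v) ≤ nr v := by
  unfold nr
  apply Real.sqrt_le_sqrt
  have h : t ^ 2 ≤ 1 := by
    have := sq_le_one_iff_abs_le_one t |>.2 ht
    exact this
  simp only [Pi.smul_apply, smul_eq_mul, mul_pow]
  nlinarith [sq_nonneg (v 0), sq_nonneg (v 1), sq_nonneg (v 2),
    mul_le_mul_of_nonneg_right h (sq_nonneg (v 0)), mul_le_mul_of_nonneg_right h (sq_nonneg (v 1)),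
    mul_le_mul_of_nonneg_right h (sq_nonneg (v 2))]

theorem WBD_lower (R x : R3) (e : ℝ) (h : nr x ≤ e) : nr R - e ≤ nr (R + x) := by
  have h1 := WBD_add (R + x) (-x)
  rw [add_neg_cancel_right, WBD_neg] at h1
  linarith

theorem WBD_step (h1 : ST_SDF) (h2 : ST_KD2) (C : ℝ)
    (h3 : ∀ (u v p : R3) (R : ℝ), 0 < R → R / 2 ≤ nr u →
      nr u ≤ 2 * R → R / 2 ≤ nr v → nr v ≤ 2 * R →
      |K2 u p - K2 v p| ≤ C * nr p ^ 2 * nr (u - v) / R ^ 4) (hC : 0 < C)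
    (R p q : R3) (D : ℝ) (hD : 0 < D) (hp : nr p ≤ D) (hq : nr q ≤ D) (hR : 4 * D ≤ nr R) :
    |(1 / nr (R + q + p) + 1 / nr (R + q - p) - 2 * (1 / nr (R + q))) -
      (1 / nr (R + p) + 1 / nr (R - p) - 2 * (1 / nr R))| ≤ 2 * (C * D ^ 3 / nr R ^ 4) := by
  have hR0 : 0 < nr R := by linarith
  have hp0 : 0 ≤ nr p := Real.sqrt_nonneg _
  have hq0 : 0 ≤ nr q := Real.sqrt_nonneg _
  have key : ∀ t : ℝ, -1 ≤ t → t ≤ 1 → nr (t • p) ≤ D := fun t a b =>
    (WBD_smul t (abs_le.2 ⟨a, b⟩) p).trans hp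
  have lo1 : ∀ t : ℝ, -1 ≤ t → t ≤ 1 → nr R / 2 ≤ nr (R + t • p) := by
    intro t a b
    have := WBD_lower R (t • p) D (key t a b)
    linarith
  have up1 : ∀ t : ℝ, -1 ≤ t → t ≤ 1 → nr (R + t • p) ≤ 2 * nr R := by
    intro t a b
    have := WBD_add R (t • p)
    have := key t a b
    linarith
  have lo2 : ∀ t : ℝ, -1 ≤ t → t ≤ 1 → nr R / 2 ≤ nr (R + q + t • p) := by
    intro t a b
    have := WBD_lower (R + q) (t • p) D (key t a b)
    have := WBD_lower R q D hq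
    linarith
  have up2 : ∀ t : ℝ, -1 ≤ t → t ≤ 1 → nr (R + q + t • p) ≤ 2 * nr R := by
    intro t a b
    have := WBD_add (R + q) (t • p)
    have := WBD_add R q
    have := key t a b
    linarith
  have ne1 : ∀ t : ℝ, -1 ≤ t → t ≤ 1 → nr (R + t • p) ≠ 0 := by
    intro t a b
    have := lo1 t a b
    intro h
    linarith
  have ne2 : ∀ t : ℝ, -1 ≤ t → t ≤ 1 → nr (R + q + t • p) ≠ 0 := by
    intro t a b
    have := lo2 t a b
    intro h
    linarith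
  have main := h1
    (fun t => 1 / nr (R + q + t • p) - 1 / nr (R + t • p))
    (fun s => -((((R + q) 0 + s * p 0) * p 0 + ((R + q) 1 + s * p 1) * p 1 +
      ((R + q) 2 + s * p 2) * p 2) / nr (R + q + s • p) ^ 3) -
      -(((R 0 + s * p 0) * p 0 + (R 1 + s * p 1) * p 1 +
      (R 2 + s * p 2) * p 2) / nr (R + s • p) ^ 3))
    (fun t => K2 (R + q + t • p) p - K2 (R + t • p) p)
    (C * D ^ 3 / nr R ^ 4)
    (fun t a b => (h2 (R + q) p t (ne2 t a b)).1.sub (h2 R p t (ne1 t a b)).1)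
    (fun t a b => (h2 (R + q) p t (ne2 t a b)).2.sub (h2 R p t (ne1 t a b)).2)
    (by
      intro t a b
      have e := h3 (R + q + t • p) (R + t • p) p (nr R) hR0 (lo2 t a b) (up2 t a b)
        (lo1 t a b) (up1 t a b)
      have e1 : R + q + t • p - (R + t • p) = q := by abel
      rw [e1] at e
      refine e.trans ?_
      apply div_le_div_of_nonneg_right _ (by positivity)
      have : nr p ^ 2 * nr q ≤ D ^ 2 * D :=
        mul_le_mul (pow_le_pow_left₀ hp0 hp 2) hq hq0 (by positivity)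
      nlinarith)
  have es : (1 / nr (R + q + p) + 1 / nr (R + q - p) - 2 * (1 / nr (R + q))) -
      (1 / nr (R + p) + 1 / nr (R - p) - 2 * (1 / nr R)) =
      (1 / nr (R + q + (1 : ℝ) • p) - 1 / nr (R + (1 : ℝ) • p)) +
      (1 / nr (R + q + (-1 : ℝ) • p) - 1 / nr (R + (-1 : ℝ) • p)) -
      2 * (1 / nr (R + q + (0 : ℝ) • p) - 1 / nr (R + (0 : ℝ) • p)) := by
    rw [one_smul, neg_one_smul, zero_smul, add_zero, add_zero, ← sub_eq_add_neg,
      ← sub_eq_add_neg]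
    ring
  rw [es]
  exact main

theorem WBD (h1 : ST_SDF) (h2 : ST_KD2) (h3 : ST_KLI) : ST_WBD := by
  obtain ⟨C, hC, h⟩ := h3
  refine ⟨4 * C, by positivity, fun R p q D hD hp hq hR => ?_⟩
  have a1 := WBD_step h1 h2 C h hC R p q D hD hp hq hR
  have a2 := WBD_step h1 h2 C h hC R p (-q) D hD hp (by rw [WBD_neg]; exact hq) hR
  have b : |((1 / nr (R + q + p) + 1 / nr (R + q - p) - 2 * (1 / nr (R + q))) -
      (1 / nr (R + p) + 1 / nr (R - p) - 2 * (1 / nr R))) +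
      ((1 / nr (R + -q + p) + 1 / nr (R + -q - p) - 2 * (1 / nr (R + -q))) -
      (1 / nr (R + p) + 1 / nr (R - p) - 2 * (1 / nr R)))| ≤
      2 * (C * D ^ 3 / nr R ^ 4) + 2 * (C * D ^ 3 / nr R ^ 4) :=
    (abs_add_le _ _).trans (add_le_add a1 a2)
  have e1 : R + p - q = R + -q + p := by abel
  have e2 : R + p + q = R + q + p := by abel
  have e3 : R - p - q = R + -q - p := by abel
  have e4 : R - p + q = R + q - p := by abel
  have e5 : R - q = R + -q := by abel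
  have es : W2 R p q = ((1 / nr (R + q + p) + 1 / nr (R + q - p) - 2 * (1 / nr (R + q))) -
      (1 / nr (R + p) + 1 / nr (R - p) - 2 * (1 / nr R))) +
      ((1 / nr (R + -q + p) + 1 / nr (R + -q - p) - 2 * (1 / nr (R + -q))) -
      (1 / nr (R + p) + 1 / nr (R - p) - 2 * (1 / nr R))) := by
    unfold W2
    rw [e1, e2, e3, e4, e5]
    ring
  rw [es]
  refine b.trans (le_of_eq ?_)
  ring

end Pool.Agent.Helper77.HT
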